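import Pool.Agent.H77.MkDefs

namespace Pool.Agent.Results.MP_3400ab_nt.Density

open H77.Mk Finset Filter Asymptotics

theorem mem_sort {m x y z : ℕ} (hx : 0 < x) (hy : 0 < y) (h1 : 3 * x * y ≤ z)
    (h : x ^ 2 + y ^ 2 + z ^ 2 = 3 * x * y * z + m) : (min x y, max x y, z) ∈ O m := by
  rcases le_total x y with e | e
  · rw [min_eq_left e, max_eq_right e]
    exact ⟨hx, e, by dsimp only; nlinarith, h1, h⟩
  · rw [min_eq_right e, max_eq_left e]
    exact ⟨hy, e, by dsimp only; nlinarith, by dsimp only; nlinarith, by dsimp only; nlinarith⟩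

theorem pow4 {α : GaussianInt} {d : ℕ} (h : α ^ 4 = star α ^ 4) (hn : α.norm = d)
    (h1 : Squarefree d) (h2 : Odd d) : d = 1 := by
  obtain ⟨x, y⟩ := α
  have hi := congrArg Zsqrtd.im h
  simp [pow_succ] at hi
  simp [Zsqrtd.norm] at hn
  have : x * y * (x ^ 2 - y ^ 2) = 0 := by linarith
  have sq : ∀ k : ℤ, k * k = d → d = 1 := fun k hk => by
    have e : k.natAbs * k.natAbs = d := by zify; simpa [abs_mul_abs_self] using hk
    have := Nat.isUnit_iff.1 (h1 k.natAbs e.dvd)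
    rw [← e, this]
  rcases mul_eq_zero.1 this with h | h
  · rcases mul_eq_zero.1 h with h | h
    · exact sq y (by simpa [h] using hn)
    · exact sq x (by simpa [h] using hn)
  · obtain ⟨k, hk⟩ := h2
    have : (2 : ℤ) * (y * y) = 2 * k + 1 := by
      have : (d : ℤ) = 2 * k + 1 := by exact_mod_cast hk
      nlinarith
    omega

theorem shape {m : ℕ} (hm : m ∈ U) : (∃ a, m = 3 * a ^ 3 + 3 * a ^ 2) ∨
    ∃ n e p, (e = 1 ∨ e = 2) ∧ (p = 1 ∨ p.Prime) ∧ m = e * p * n ^ 2 := by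
  obtain ⟨⟨a, b, c⟩, ht⟩ := Set.ncard_eq_one.1 hm.2
  have un : ∀ t ∈ O m, t = (a, b, c) := fun t h => by rwa [ht] at h
  obtain ⟨a0, ab, bc, hc, he⟩ : (a, b, c) ∈ O m := by rw [ht]; rfl
  dsimp only at a0 ab bc hc he
  obtain ⟨k, rfl⟩ := Nat.exists_eq_add_of_le hc
  have hm' : m = a ^ 2 + b ^ 2 + k ^ 2 + 3 * a * b * k := by nlinarith
  rcases k.eq_zero_or_pos with rfl | k0
  swap
  · have h1 := un _ (mem_sort (z := b + 3 * a * k) a0 k0 (by omega) (by rw [hm']; ring))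
    have h2 := un _ (mem_sort (x := b) (z := a + 3 * b * k) (by omega) k0 (by omega)
      (by rw [hm']; ring))
    simp only [Prod.mk.injEq] at h1 h2
    obtain rfl : k = b := by omega
    obtain rfl : k = a := by omega
    exact .inl ⟨k, by rw [hm']; ring⟩
  right
  obtain ⟨u, v, huv, hv⟩ := Nat.eq_sq_add_sq_iff_eq_sq_mul.1 ⟨a, b, by simpa using hm'⟩
  obtain ⟨s, w, hsw, hs⟩ := Nat.sq_mul_squarefree v
  have hms : m = s * (u * w) ^ 2 := by rw [huv, ← hsw]; ring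
  have sos : ∀ d, d ∣ s → ∃ z : GaussianInt, z.norm = d := fun d hd => by
    obtain ⟨x, y, e⟩ := Nat.eq_sq_add_sq_of_isSquare_mod_neg_one
      (ZMod.isSquare_neg_one_of_dvd (hd.trans (Dvd.intro_left _ hsw)) hv)
    exact ⟨⟨x, y⟩, by simp [Zsqrtd.norm, e, sq]⟩
  by_cases two : ∃ p q, p.Prime ∧ q.Prime ∧ p ≠ 2 ∧ q ≠ 2 ∧ p ≠ q ∧ p ∣ s ∧ q ∣ s
  · exfalso
    obtain ⟨p, q, pp, qq, p2, q2, pq, ps, qs⟩ := two
    have d : p * q ∣ s := ((Nat.coprime_primes pp qq).2 pq).mul_dvd_of_dvd_of_dvd ps qs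
    obtain ⟨r, hr⟩ := d
    obtain ⟨P, hP⟩ := sos p ps
    obtain ⟨Q, hQ⟩ := sos q qs
    obtain ⟨R, hR⟩ := sos r (Dvd.intro_left _ hr.symm)
    have m0 : 0 < u * w := Nat.pos_of_ne_zero fun h => by have := hm.1; simp [hms, h] at this
    have nsq : ∀ x : ℕ, x ^ 2 ≠ m := fun x hx => by
      have : (u * w) ^ 2 ∣ x ^ 2 := by rw [hx, hms]; exact Dvd.intro_left _ rfl
      obtain ⟨j, rfl⟩ := (Nat.pow_dvd_pow_iff two_ne_zero).1 this
      have e : j * j = s := Nat.eq_of_mul_eq_mul_left (pow_pos m0 2) (by linarith)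
      have := Nat.isUnit_iff.1 (hs j e.dvd)
      rw [← e, this] at ps
      exact pp.one_lt.ne' (Nat.dvd_one.1 ps)
    have key : ∀ z : GaussianInt, z.norm = m →
        z ^ 4 = (⟨a, b⟩ : GaussianInt) ^ 4 ∨ z ^ 4 = (⟨a, -b⟩ : GaussianInt) ^ 4 := by
      rintro ⟨x, y⟩ hz
      have e : x.natAbs ^ 2 + y.natAbs ^ 2 = m := by
        zify; simpa [Zsqrtd.norm, sq, abs_mul_abs_self] using hz
      have x0 : 0 < x.natAbs := Nat.pos_of_ne_zero fun h => nsq y.natAbs (by simpa [h] using e)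
      have y0 : 0 < y.natAbs := Nat.pos_of_ne_zero fun h => nsq x.natAbs (by simpa [h] using e)
      have h1 := un _ (mem_sort (z := 3 * x.natAbs * y.natAbs) x0 y0 le_rfl (by rw [← e]; ring))
      simp only [Prod.mk.injEq] at h1
      have : (x = a ∨ x = -a) ∧ (y = b ∨ y = -b) ∨ (x = b ∨ x = -b) ∧ (y = a ∨ y = -a) := by omega
      rcases this with ⟨rfl | rfl, rfl | rfl⟩ | ⟨rfl | rfl, rfl | rfl⟩ <;>
        first
        | (left; ext <;> simp [pow_succ] <;> ring1)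
        | (right; ext <;> simp [pow_succ] <;> ring1)
        | exact .inl rfl
        | exact .inr rfl
    set S : GaussianInt := R * ((u * w : ℕ) : GaussianInt) with hS
    have nS : S.norm = r * (u * w) ^ 2 := by
      rw [hS, Zsqrtd.norm_mul, hR, Zsqrtd.norm_natCast]; push_cast; ring
    have fin : (p : ℤ) * q * (r * (u * w) ^ 2) = m := by rw [hms, hr]; push_cast; ring
    have k1 := key (P * Q * S) (by simp only [Zsqrtd.norm_mul, hP, hQ, nS, fin])
    have k2 := key (P * star Q * S) (by simp only [Zsqrtd.norm_mul, Zsqrtd.norm_conj, hP, hQ, nS, fin])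
    have k3 := key (star P * Q * S) (by simp only [Zsqrtd.norm_mul, Zsqrtd.norm_conj, hP, hQ, nS, fin])
    have nz : ∀ z : GaussianInt, z.norm ≠ 0 → z ^ 4 ≠ 0 := fun z h =>
      pow_ne_zero _ fun e => h (by simp [e])
    have m1 : (m : ℤ) ≠ 0 := by have := hm.1; omega
    have S0 := nz S (by rw [nS]; intro h; rw [h] at fin; simp at fin; omega)
    have P0 := nz P (by rw [hP]; exact_mod_cast pp.ne_zero)
    have Q0 := nz Q (by rw [hQ]; exact_mod_cast qq.ne_zero)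
    have : (P * Q * S) ^ 4 = (P * star Q * S) ^ 4 ∨ (P * Q * S) ^ 4 = (star P * Q * S) ^ 4 ∨
        (P * star Q * S) ^ 4 = (star P * Q * S) ^ 4 := by
      rcases k1 with k1 | k1 <;> rcases k2 with k2 | k2 <;> rcases k3 with k3 | k3 <;>
        simp [k1, k2, k3]
    simp only [mul_pow] at this
    rcases this with h | h | h
    · exact qq.one_lt.ne' (pow4 (mul_left_cancel₀ P0 (mul_right_cancel₀ S0 h)) hQ qq.squarefree
        (qq.odd_of_ne_two q2))
    · exact pp.one_lt.ne' (pow4 (mul_right_cancel₀ Q0 (mul_right_cancel₀ S0 h)) hP pp.squarefree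
        (pp.odd_of_ne_two p2))
    · have := pow4 (α := P * star Q) (d := p * q)
        (by simpa [mul_pow, mul_comm] using mul_right_cancel₀ S0 h)
        (by simp [Zsqrtd.norm_mul, hP, hQ]) (hs.squarefree_of_dvd ⟨r, hr⟩)
        ((pp.odd_of_ne_two p2).mul (qq.odd_of_ne_two q2))
      exact pp.one_lt.ne' (Nat.eq_one_of_mul_eq_one_right this)
  · obtain ⟨p, pp, p2, hp⟩ : ∃ p, p.Prime ∧ p ≠ 2 ∧ s.primeFactors ⊆ {2, p} := by
      by_cases h : ∃ p, p.Prime ∧ p ≠ 2 ∧ p ∣ s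
      · obtain ⟨p, pp, p2, ps⟩ := h
        refine ⟨p, pp, p2, fun q hq => ?_⟩
        by_contra hn
        simp only [mem_insert, mem_singleton, not_or] at hn
        exact two ⟨q, p, Nat.prime_of_mem_primeFactors hq, pp, hn.1, p2, hn.2,
          Nat.dvd_of_mem_primeFactors hq, ps⟩
      · refine ⟨3, Nat.prime_three, by norm_num, fun q hq => mem_insert.2 (.inl ?_)⟩
        by_contra hn
        exact h ⟨q, Nat.prime_of_mem_primeFactors hq, hn, Nat.dvd_of_mem_primeFactors hq⟩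
    have := prod_dvd_prod_of_subset _ _ (fun x => x) hp
    rw [Nat.prod_primeFactors_of_squarefree hs, prod_pair p2.symm] at this
    obtain ⟨e, f, h1, h2, rfl⟩ := exists_dvd_and_dvd_of_dvd_mul this
    exact ⟨u * w, e, f, (Nat.dvd_prime Nat.prime_two).1 h1,
      ((Nat.dvd_prime pp).1 h2).imp id fun (h : f = p) => h ▸ pp, hms⟩

theorem pi_log {y : ℝ} (hy : 1 ≤ y) : (Nat.primeCounting ⌊y⌋₊ : ℝ) * Real.log y ≤ 5 * y := by
  rcases hy.eq_or_lt with rfl | hy'
  · simp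
  have h := Chebyshev.pi_le_log4_mul_div hy'
  have l0 := Real.log_pos hy'
  have s0 := Real.sqrt_nonneg y
  have l1 : Real.log y ≤ 2 * √y := by
    have := Real.log_le_sub_one_of_pos (Real.sqrt_pos.2 (by linarith : 0 < y))
    rw [Real.log_sqrt (by linarith)] at this; linarith
  have l4 : Real.log 4 ≤ 3 / 2 := by
    rw [show (4 : ℝ) = 2 ^ 2 by norm_num, Real.log_pow]; push_cast; linarith [Real.log_two_lt_d9]
  rw [Real.log_sqrt (by linarith)] at h
  have e : (Real.log 4 * y / (Real.log y / 2) + √y) * Real.log y =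
      2 * Real.log 4 * y + √y * Real.log y := by field_simp
  have := Real.mul_self_sqrt (by linarith : 0 ≤ y)
  nlinarith [mul_le_mul_of_nonneg_right h l0.le, mul_le_mul_of_nonneg_left l1 s0]

theorem result : (fun x : ℝ => (({m ∈ U | (m : ℝ) ≤ x}.ncard : ℕ) : ℝ)) =O[atTop]
    fun x : ℝ => x / Real.log x := by
  classical
  have sm : Summable fun n : ℕ => 9 * ((n : ℝ) ^ (3 / 2 : ℝ))⁻¹ :=
    (Real.summable_nat_rpow_inv.2 (by norm_num)).mul_left 9
  set K := ∑' n : ℕ, 9 * ((n : ℝ) ^ (3 / 2 : ℝ))⁻¹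
  refine IsBigO.of_bound (8 + 2 * K) ?_
  filter_upwards [eventually_gt_atTop 1] with x hx
  have l0 := Real.log_pos hx
  have s1 : 1 ≤ √x := Real.one_le_sqrt.2 hx.le
  have ss := Real.mul_self_sqrt (by linarith : 0 ≤ x)
  have l1 : Real.log x ≤ 2 * √x := by
    have := Real.log_le_sub_one_of_pos (Real.sqrt_pos.2 (by linarith : 0 < x))
    rw [Real.log_sqrt (by linarith)] at this; linarith
  set N := ⌊√x⌋₊ with hN
  have N1 : (N : ℝ) ≤ √x := Nat.floor_le (by linarith)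
  set T : ℕ → Finset ℕ := fun n => insert 1 (Nat.primesLE ⌊x / n ^ 2⌋₊) with hT
  have sub : {m ∈ U | (m : ℝ) ≤ x} ⊆ ↑((range (N + 1)).image (fun a => 3 * a ^ 3 + 3 * a ^ 2) ∪
      (Icc 1 N).biUnion fun n => (T n).image (fun p => 1 * p * n ^ 2) ∪
        (T n).image fun p => 2 * p * n ^ 2) := by
    rintro m ⟨hm, hx'⟩
    have sq : ∀ a : ℕ, a ^ 2 ≤ m → a ≤ N := fun a ha =>
      Nat.le_floor (Real.le_sqrt_of_sq_le (le_trans (by exact_mod_cast ha) hx'))
    rw [mem_coe, mem_union]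
    rcases shape hm with ⟨a, h⟩ | ⟨n, e, p, he, hp, h⟩
    · exact .inl (mem_image.2 ⟨a, mem_range.2 (Nat.lt_succ_of_le (sq a (by omega))), h.symm⟩)
    · have m1 := hm.1
      have n0 : 0 < n := Nat.pos_of_ne_zero fun h0 => by simp [h, h0] at m1
      have p0 : 1 ≤ p := by rcases hp with rfl | hp; exacts [le_rfl, hp.one_le]
      have b1 : p * n ^ 2 ≤ m := by rcases he with rfl | rfl <;> nlinarith
      have pT : p ∈ T n := mem_insert.2 (hp.imp id fun hp => Nat.mem_primesLE.2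
        ⟨Nat.le_floor ((le_div_iff₀ (by positivity)).2 (le_trans (by exact_mod_cast b1) hx')), hp⟩)
      refine .inr (mem_biUnion.2 ⟨n, mem_Icc.2 ⟨n0, sq n (by nlinarith)⟩, mem_union.2 ?_⟩)
      rcases he with rfl | rfl
      exacts [.inl (mem_image.2 ⟨p, pT, h.symm⟩), .inr (mem_image.2 ⟨p, pT, h.symm⟩)]
  have c1 : {m ∈ U | (m : ℝ) ≤ x}.ncard ≤
      N + 1 + ∑ n ∈ Icc 1 N, 2 * (Nat.primeCounting ⌊x / n ^ 2⌋₊ + 1) := by
    refine (Set.ncard_le_ncard sub (finite_toSet _)).trans ?_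
    rw [Set.ncard_coe_finset]
    refine (card_union_le _ _).trans (add_le_add (card_image_le.trans (card_range _).le)
      (card_biUnion_le.trans (sum_le_sum fun n _ => (card_union_le _ _).trans ?_)))
    have : (T n).card ≤ Nat.primeCounting ⌊x / n ^ 2⌋₊ + 1 :=
      (card_insert_le _ _).trans (by rw [Nat.primesLE_card_eq_primeCounting])
    linarith [card_image_le (s := T n) (f := fun p => 1 * p * n ^ 2),
      card_image_le (s := T n) (f := fun p => 2 * p * n ^ 2)]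
  have c2 : ∀ n ∈ Icc 1 N, (Nat.primeCounting ⌊x / n ^ 2⌋₊ : ℝ) * Real.log x ≤
      x * (9 * ((n : ℝ) ^ (3 / 2 : ℝ))⁻¹) := fun n hn => by
    obtain ⟨n1, n2⟩ := mem_Icc.1 hn
    have n3 : (1 : ℝ) ≤ n := by exact_mod_cast n1
    have n4 : (n : ℝ) ≤ √x := le_trans (by exact_mod_cast n2) N1
    have y1 : 1 ≤ x / n ^ 2 := (one_le_div (by positivity)).2 (by nlinarith)
    have a1 := pi_log y1
    have a2 : (Nat.primeCounting ⌊x / n ^ 2⌋₊ : ℝ) ≤ x / n ^ 2 := by
      refine le_trans ?_ (Nat.floor_le (by linarith))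
      rw [← Nat.primesLE_card_eq_primeCounting, Nat.cast_le]
      exact (card_le_card (t := Icc 1 ⌊x / n ^ 2⌋₊) fun p hp => mem_Icc.2
        ⟨(Nat.mem_primesLE.1 hp).2.one_le, (Nat.mem_primesLE.1 hp).1⟩).trans (by simp)
    have a3 : Real.log x = Real.log (x / n ^ 2) + 2 * Real.log n := by
      rw [Real.log_div (by linarith) (by positivity), Real.log_pow]; push_cast; ring
    have a4 := Real.log_le_rpow_div (by linarith : (0 : ℝ) ≤ n) (by norm_num : (0 : ℝ) < 1 / 2)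
    have a5 : 1 ≤ (n : ℝ) ^ (1 / 2 : ℝ) := Real.one_le_rpow n3 (by norm_num)
    have a6 : x * (9 * ((n : ℝ) ^ (3 / 2 : ℝ))⁻¹) = 9 * (x / n ^ 2 * (n : ℝ) ^ (1 / 2 : ℝ)) := by
      have : (n : ℝ) ^ 2 = (n : ℝ) ^ (3 / 2 : ℝ) * (n : ℝ) ^ (1 / 2 : ℝ) := by
        rw [← Real.rpow_add (by linarith)]; norm_num
      rw [this]; field_simp
    have a7 := Real.log_nonneg n3
    rw [a6, a3]
    nlinarith [mul_le_mul a2 a4 a7 (by linarith), mul_le_mul_of_nonneg_left a5 (by linarith : 0 ≤ x / n ^ 2)]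
  have c3 := (sum_le_sum c2).trans_eq (mul_sum _ _ _).symm
  have c4 : ∑ n ∈ Icc 1 N, 9 * ((n : ℝ) ^ (3 / 2 : ℝ))⁻¹ ≤ K :=
    sm.sum_le_tsum _ fun n _ => by positivity
  rw [← sum_mul] at c3
  have c5 : (({m ∈ U | (m : ℝ) ≤ x}.ncard : ℕ) : ℝ) ≤
      N + 1 + (2 * ∑ n ∈ Icc 1 N, (Nat.primeCounting ⌊x / n ^ 2⌋₊ : ℝ) + 2 * N) := by
    refine (Nat.cast_le.2 c1).trans_eq ?_
    push_cast
    simp only [mul_add, sum_add_distrib, mul_sum, sum_const, Nat.card_Icc, nsmul_eq_mul,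
      add_tsub_cancel_right]
    ring
  rw [Real.norm_of_nonneg (by positivity), Real.norm_of_nonneg (by positivity), ← mul_div_assoc,
    le_div_iff₀ l0]
  nlinarith [mul_le_mul_of_nonneg_right c5 l0.le, mul_le_mul_of_nonneg_left c4 (by linarith : 0 ≤ x),
    mul_le_mul (by linarith : 3 * (N : ℝ) + 1 ≤ 4 * √x) l1 l0.le (by linarith)]

end Pool.Agent.Results.MP_3400ab_nt.Density
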